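import Pool.Agent.Helper95.QL.Defs
import Pool.Agent.Helper95.QD.F
import Pool.Agent.Helper95.QD.D
import Pool.Agent.Helper56.QD.Low

/-! Project QL, block CP: the blocks of EQ / QD for a general bounded sequence `cf` with `cf 1 = 1`, and for the Liouville function. -/

set_option autoImplicit false

namespace Pool.Agent.Helper56.QL

open MeasureTheory Set Filter Topology
open Pool.Agent.Helper95.EW
open Pool.Agent.Helper71.MR (gt gt_cont gt_nonneg gt_zero gt_le_one gt_integrable gt_lip gt_int_pos)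
open Pool.Agent.Helper63.EW (ha ma AA S AA_meas ma_meas Dl_ha ma_int gt_le of_weighted)
open Pool.Agent.Helper63.EQ (nu Zn Adm gt_int_le ell_one ell_shift ha_meas)
open Pool.Agent.Helper19.QD (ps Dr Wd ps_int ps_supp Dr_eq)
open Pool.Agent.Helper95.EQ (Dv ell_one_le ell_shift1 ell_sub_le al_up al_tail G0 G0_one G0_mono loglog16 log_nat_nonneg)
open Pool.Agent.Helper56.QD (bb bb_cont bb_lip near_low Hb)
open Pool.Agent.Helper56.EQ (XX_le_32)
open Pool.Agent.Helper95.QD (Dr_Dv)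
open Pool.Agent.Helper99.MS

variable {cf : ℕ → ℝ} {w : ℝ → ℝ} {Cw B : ℝ}

/-- the bump average of the normalised sum function of `cf` -/
noncomputable def g1a (cf : ℕ → ℝ) (m v : ℝ) : ℝ := ∫ t : ℝ, ff cf (v - t) * al m t

theorem g1a_bd (h : GB (ff cf) B) (m v t : ℝ) :
    |ff cf (v - t) * al m t| ≤ (B * ell v) * (ell t * |al m t|) := by
  rw [abs_mul]
  have h1 : ell (v - t) ≤ ell v * ell t := by
    have := ell_add v (-t)
    rw [ell_neg] at this
    exact this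
  calc |ff cf (v - t)| * |al m t| ≤ (B * ell (v - t)) * |al m t| :=
        mul_le_mul_of_nonneg_right (h _) (abs_nonneg _)
    _ ≤ (B * (ell v * ell t)) * |al m t| := by
        apply mul_le_mul_of_nonneg_right _ (abs_nonneg _)
        exact mul_le_mul_of_nonneg_left h1 h.nonneg
    _ = _ := by ring

theorem g1a_int (h : GB (ff cf) B) {m : ℝ} (hm : 8 ≤ m) (v : ℝ) :
    Integrable (fun t => ff cf (v - t) * al m t) := by
  refine Integrable.mono' ((ell_al_int hm).const_mul (B * ell v)) ?_ ?_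
  · apply AEStronglyMeasurable.mul
    · exact ((ff_meas cf).comp (by fun_prop : Measurable (fun t : ℝ => v - t))).aestronglyMeasurable
    · exact (al_cont m).aestronglyMeasurable
  · apply Filter.Eventually.of_forall
    intro t
    exact g1a_bd h m v t

theorem g1a_tail (h : GB (ff cf) B) {m : ℝ} (hm : 8 ≤ m) (v : ℝ) (S : Set ℝ) :
    |∫ t in S, ff cf (v - t) * al m t| ≤ B * ell v * ∫ t in S, ell t * |al m t| := by
  rw [← integral_const_mul, ← Real.norm_eq_abs]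
  refine norm_integral_le_of_norm_le ((ell_al_int hm).integrableOn.const_mul _) ?_
  apply Filter.Eventually.of_forall
  intro t
  exact g1a_bd h m v t

theorem ff_small1 (h1c : cf 1 = 1) {y : ℝ} (h0 : 0 ≤ y) (h1 : y < Real.log 2) : ff cf y = Real.exp (-(y / 2)) := by
  unfold ff Asum
  have hx : ⌊Real.exp y⌋₊ = 1 := by
    rw [Nat.floor_eq_iff (Real.exp_pos y).le]
    constructor
    · rw [Nat.cast_one]
      exact Real.one_le_exp h0
    · push_cast
      have := Real.exp_lt_exp.2 h1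
      rw [Real.exp_log (by norm_num)] at this
      linarith
  rw [hx]
  simp [h1c]

theorem g1a_meas (cf : ℕ → ℝ) (m : ℝ) : Measurable (g1a cf m) := by
  have h : StronglyMeasurable (fun p : ℝ × ℝ => ff cf (p.1 - p.2) * al m p.2) := by
    apply Measurable.stronglyMeasurable
    apply Measurable.mul
    · exact (ff_meas cf).comp (measurable_fst.sub measurable_snd)
    · exact (al_cont m).measurable.comp measurable_snd
  exact (h.integral_prod_right (ν := volume)).measurable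

theorem g1a_abs (hB : GB (ff cf) B) {m : ℝ} (hm : 8 ≤ m) (v : ℝ) : |g1a cf m v| ≤ 16 * B * ell v := by
  have h := g1a_tail hB hm v Set.univ
  simp only [Measure.restrict_univ] at h
  have h2 := ell_al_tot hm
  have h3 : 0 ≤ B * ell v := mul_nonneg hB.nonneg (ell_nonneg v)
  unfold g1a
  nlinarith

theorem g1a_near (h1c : cf 1 = 1) (hB : GB (ff cf) B) {m : ℝ} (hm : 64 ≤ m) {v : ℝ} (h1 : -1 ≤ v) (h2 : v ≤ 1 / 5) :
    |g1a cf m v - Real.exp (-(v / 2)) * EE m v| ≤ 2 * Real.exp (-(m / 32)) + 16 * B * Real.exp (-((m - 4) / 32)) := by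
  have hm8 : 8 ≤ m := by linarith
  have hB0 := hB.nonneg
  have hl2a := Real.log_two_gt_d9
  have hl2b := Real.log_two_lt_d9
  set a := v - Real.log 2 with ha
  have ha1 : a ≤ -(49 / 100) := by rw [ha]; linarith
  have ha2 : -2 ≤ a := by rw [ha]; linarith
  have hi := g1a_int hB hm8 v
  have hXa : XX a ≤ -(1 / 32) := XX_le_32 ha2 ha1
  have hE1 : EE m a ≤ Real.exp (-(m / 32)) := by
    unfold EE
    apply Real.exp_le_exp.2
    nlinarith
  have hE2 : EE (m - 4) a ≤ Real.exp (-((m - 4) / 32)) := by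
    unfold EE
    apply Real.exp_le_exp.2
    nlinarith
  have hs1 : g1a cf m v = (∫ t in Set.Iic v, ff cf (v - t) * al m t) + ∫ t in Set.Ioi v, ff cf (v - t) * al m t := by
    unfold g1a
    exact (intervalIntegral.integral_Iic_add_Ioi hi.integrableOn hi.integrableOn).symm
  have hs2 : ∫ t in Set.Ioi v, ff cf (v - t) * al m t = 0 := by
    rw [← integral_zero ℝ ℝ (μ := volume.restrict (Set.Ioi v))]
    apply setIntegral_congr_fun measurableSet_Ioi
    intro t ht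
    have ht' : v < t := ht
    simp only
    rw [ff_neg (by linarith), zero_mul]
  have hs3 : ∫ t in Set.Iic v, ff cf (v - t) * al m t =
      (∫ t in Set.Iic a, ff cf (v - t) * al m t) + ∫ t in Set.Ioc a v, ff cf (v - t) * al m t := by
    rw [← setIntegral_union (Set.Iic_disjoint_Ioc le_rfl) measurableSet_Ioc hi.integrableOn hi.integrableOn,
      Set.Iic_union_Ioc_eq_Iic (by rw [ha]; linarith)]
  have hs4 : ∫ t in Set.Ioc a v, ff cf (v - t) * al m t = Real.exp (-(v / 2)) * (EE m v - EE m a) := by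
    have h5 : ∀ t ∈ Set.Ioc a v, ff cf (v - t) * al m t = Real.exp (-(v / 2)) * ww m t := by
      intro t ht
      rw [ff_small1 h1c (by linarith [ht.2]) (by rw [ha] at ht; linarith [ht.1])]
      unfold al
      rw [← mul_assoc, ← Real.exp_add]
      congr 2
      ring
    rw [setIntegral_congr_fun measurableSet_Ioc h5, integral_const_mul]
    congr 1
    have h6 : ∫ t in Set.Iic v, ww m t = (∫ t in Set.Iic a, ww m t) + ∫ t in Set.Ioc a v, ww m t := by
      have hw := ww_int (p := m) (by linarith)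
      rw [← setIntegral_union (Set.Iic_disjoint_Ioc le_rfl) measurableSet_Ioc hw.integrableOn hw.integrableOn,
        Set.Iic_union_Ioc_eq_Iic (by rw [ha]; linarith)]
    rw [ww_Iic (by linarith), ww_Iic (by linarith)] at h6
    linarith
  have hs5 : |∫ t in Set.Iic a, ff cf (v - t) * al m t| ≤ 16 * B * Real.exp (-((m - 4) / 32)) := by
    refine (g1a_tail hB hm8 v _).trans ?_
    have h7 := tail_Iic hm8 (a := a) (by linarith)
    have h8 : ell v ≤ 2 := by
      have := ell_le_linear v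
      have h9 : |v| ≤ 1 := abs_le.2 ⟨h1, by linarith⟩
      linarith
    calc B * ell v * ∫ t in Set.Iic a, ell t * |al m t|
        ≤ (B * 2) * (8 * Real.exp (-((m - 4) / 32))) := by
          apply mul_le_mul _ (h7.trans (by linarith)) _ (by positivity)
          · exact mul_le_mul_of_nonneg_left h8 hB0
          · apply integral_nonneg
            intro t
            exact mul_nonneg (ell_nonneg t) (abs_nonneg _)
      _ = _ := by ring
  have hs6 := abs_le.1 hs5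
  have hE4 : Real.exp (-(v / 2)) ≤ 2 := by
    have h6 : Real.exp (-(v / 2)) ≤ Real.exp (1/2) := Real.exp_le_exp.2 (by linarith)
    have h7 : Real.exp (1/2) ≤ 2 := by
      have h8 : Real.exp (1/2) ^ 2 = Real.exp 1 := by
        rw [← Real.exp_nat_mul]; norm_num
      have he := Real.exp_one_lt_d9
      nlinarith [Real.exp_pos (1/2 : ℝ)]
    linarith
  have hE5 : Real.exp (-(v / 2)) * EE m a ≤ 2 * Real.exp (-(m / 32)) :=
    mul_le_mul hE4 hE1 (EE_pos m a).le (by norm_num)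
  have hE6 : 0 ≤ Real.exp (-(v / 2)) * EE m a := mul_nonneg (Real.exp_pos _).le (EE_pos m a).le
  have hE7 := Real.exp_pos (-(m / 32))
  rw [hs1, hs2, hs3, hs4, abs_le]
  constructor
  · linarith [mul_sub (Real.exp (-(v / 2))) (EE m v) (EE m a), hs6.1]
  · linarith [mul_sub (Real.exp (-(v / 2))) (EE m v) (EE m a), hs6.2]

theorem Dr_low_core1 (h1c : cf 1 = 1) (h : Adm w Cw) (hB : GB (ff cf) B) {m : ℝ} (hm : 1000 ≤ m) {V : ℝ} (h1 : -(2 / √m) ≤ V) (h2 : V ≤ -(1 / √m))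
    (hps : ∀ y : ℝ, y ≤ -(1 / 2) ∨ 1 / √m ≤ y → ps w (1 / √m) y = 0) (hpi : Integrable (ps w (1 / √m)))
    (hDr : ∀ f : ℝ → ℝ, Measurable f → ∀ M : ℝ, (∀ y ∈ Icc (V - 1) (V + 1), |f y| ≤ M) →
      Dr w (1 / √m) f V = ∫ lam in Nr w, Dl (fun y => ∫ u : ℝ, f (y + u) * gt (1 / √m) u) w V lam) :
    1 / 64 * nu w (6 / √m) * (∫ u : ℝ, gt (1 / √m) u) -
      (2 * Real.exp (-(m / 32)) + 16 * B * Real.exp (-((m - 4) / 32))) * (∫ y : ℝ, |ps w (1 / √m) y|)
      ≤ Dr w (1 / √m) (g1a cf m) V := by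
  have hB0 := hB.nonneg
  have hs : 31 ≤ √m := by
    rw [show (31 : ℝ) = √(31 ^ 2) by rw [Real.sqrt_sq (by norm_num)]]
    apply Real.sqrt_le_sqrt
    norm_num
    linarith
  have hs0 : 0 < √m := by linarith
  have e6 : 6 / √m = 6 * (1 / √m) := by ring
  have e2 : 2 / √m = 2 * (1 / √m) := by ring
  rw [e6]
  rw [e2] at h1
  set δ : ℝ := 1 / √m with hδd
  have hδ0 : 0 < δ := by positivity
  have hδ1 : δ ≤ 1 / 31 := by
    rw [hδd]
    apply one_div_le_one_div_of_le (by norm_num) hs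
  have hmδ : m * δ ^ 2 = 1 := by
    rw [hδd, div_pow, one_pow, Real.sq_sqrt (by linarith)]
    field_simp
  obtain ⟨M, hM0, hM1, hM2⟩ := bb_lip m
  have hgm := g1a_meas cf m
  set Er : ℝ := 2 * Real.exp (-(m / 32)) + 16 * B * Real.exp (-((m - 4) / 32)) with hEr
  have hb := hDr (bb m) (bb_cont m).measurable M (fun y hy => hM1 y ⟨by linarith [hy.1], by linarith [hy.2]⟩)
  have hlow := near_low h (by linarith : 0 ≤ m) hδ0 hδ1 hmδ h1 h2
  have hb2 : Dr w δ (bb m) V = ∫ lam in Nr w, Dl (Hb m δ) w V lam := hb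
  rw [← hb2] at hlow
  have i1 : Integrable (fun y : ℝ => ps w δ y * bb m (V + y)) := by
    refine Integrable.mono' (hpi.abs.mul_const M) ?_ ?_
    · exact hpi.aestronglyMeasurable.mul ((bb_cont m).comp (by fun_prop)).aestronglyMeasurable
    · refine Eventually.of_forall fun y => ?_
      rw [norm_mul, Real.norm_eq_abs, Real.norm_eq_abs]
      by_cases hy : y ≤ -(1 / 2) ∨ δ ≤ y
      · rw [hps y hy]; simp
      · push Not at hy
        exact mul_le_mul_of_nonneg_left (hM1 _ ⟨by linarith [hy.1], by linarith [hy.2]⟩) (abs_nonneg _)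
  have hr : ∀ y : ℝ, |ps w δ y * (g1a cf m (V + y) - bb m (V + y))| ≤ Er * |ps w δ y| := by
    intro y
    by_cases hy : y ≤ -(1 / 2) ∨ δ ≤ y
    · rw [hps y hy]; simp
    · push Not at hy
      rw [abs_mul, mul_comm]
      apply mul_le_mul_of_nonneg_right _ (abs_nonneg _)
      exact g1a_near h1c hB (by linarith) (by linarith [hy.1]) (by linarith [hy.2])
  have i2 : Integrable (fun y : ℝ => ps w δ y * (g1a cf m (V + y) - bb m (V + y))) := by
    refine Integrable.mono' (hpi.abs.const_mul Er) ?_ (Eventually.of_forall fun y => ?_)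
    · exact hpi.aestronglyMeasurable.mul
        ((hgm.comp (by fun_prop)).sub ((bb_cont m).measurable.comp (by fun_prop))).aestronglyMeasurable
    · rw [Real.norm_eq_abs]
      exact hr y
  have hsplit : Dr w δ (g1a cf m) V = Dr w δ (bb m) V + ∫ y : ℝ, ps w δ y * (g1a cf m (V + y) - bb m (V + y)) := by
    unfold Dr
    rw [← integral_add i1 i2]
    congr 1
    ext y
    ring
  have hrest : |∫ y : ℝ, ps w δ y * (g1a cf m (V + y) - bb m (V + y))| ≤ Er * ∫ y : ℝ, |ps w δ y| := by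
    rw [← integral_const_mul, ← Real.norm_eq_abs]
    refine norm_integral_le_of_norm_le (hpi.abs.const_mul Er) (Eventually.of_forall fun y => ?_)
    rw [Real.norm_eq_abs]
    exact hr y
  rw [hsplit]
  have := (abs_le.1 hrest).1
  linarith

theorem Dr_low1 (h1c : cf 1 = 1) (h : Adm w Cw) (hB : GB (ff cf) B) {m : ℝ} (hm : 1000 ≤ m) {V : ℝ} (h1 : -(2 / √m) ≤ V) (h2 : V ≤ -(1 / √m)) :
    1 / 64 * nu w (6 / √m) * (∫ u : ℝ, gt (1 / √m) u) -
      (2 * Real.exp (-(m / 32)) + 16 * B * Real.exp (-((m - 4) / 32))) * (∫ y : ℝ, |ps w (1 / √m) y|)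
      ≤ Dr w (1 / √m) (g1a cf m) V := by
  have hs : 31 ≤ √m := by
    rw [show (31 : ℝ) = √(31 ^ 2) by rw [Real.sqrt_sq (by norm_num)]]
    apply Real.sqrt_le_sqrt
    norm_num
    linarith
  have hδ0 : 0 < 1 / √m := by positivity
  have hδ1 : 1 / √m ≤ 1 / 31 := one_div_le_one_div_of_le (by norm_num) hs
  exact Dr_low_core1 h1c h hB hm h1 h2 (fun y hy => ps_supp h hδ0.le hy) (ps_int h hδ0 (by linarith)).1
    (fun f hf M hM => Dr_eq h hδ0.le (by linarith) hf hM)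

theorem ma_ff1 (cf : ℕ → ℝ) (x : ℝ) : ma cf x = ff cf x := by
  unfold ma ff
  rw [neg_div]
  rfl

theorem ma_shift1 (hB : GB (ff cf) B) {x y : ℝ} (hy : |y| ≤ 1) : |ma cf (x + y)| ≤ 2 * B * ell x := by
  rw [ma_ff1]
  refine (hB _).trans ?_
  have := hB.nonneg
  have h2 := ell_shift (x := x) hy
  nlinarith

theorem ha_abs1 (hB : GB (ff cf) B) {δ : ℝ} (hδ0 : 0 < δ) (hδ : δ ≤ 1) (y : ℝ) : |ha cf δ y| ≤ 8 * B * ell y := by
  have hB0 := hB.nonneg
  have hl := ell_nonneg y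
  unfold ha
  rw [← Real.norm_eq_abs]
  calc ‖∫ u : ℝ, ma cf (y + u) * gt δ u‖ ≤ ∫ u : ℝ, (2 * B * ell y) * gt δ u := by
        refine norm_integral_le_of_norm_le ((gt_integrable δ).const_mul _) (Eventually.of_forall fun u => ?_)
        rw [norm_mul, Real.norm_of_nonneg (gt_nonneg _ _), Real.norm_eq_abs]
        rcases le_or_gt u 0 with h | h
        · simp [gt_zero (δ := δ) (Or.inl h)]
        rcases le_or_gt δ u with h' | h'
        · simp [gt_zero (δ := δ) (Or.inr h')]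
        exact mul_le_mul_of_nonneg_right (ma_shift1 hB (by rw [abs_of_pos h]; linarith)) (gt_nonneg _ _)
    _ = (2 * B * ell y) * ∫ u : ℝ, gt δ u := integral_const_mul _ _
    _ ≤ (2 * B * ell y) * 1 := mul_le_mul_of_nonneg_left (gt_int_le hδ) (by positivity)
    _ ≤ _ := by nlinarith [mul_nonneg hB0 hl]

theorem ha_lip1 (hab : ∀ n, |cf n| ≤ 1) (hB : GB (ff cf) B) {δ : ℝ} (hδ0 : 0 < δ) (hδ : δ ≤ 1) (y t : ℝ) (h1 : -(1 / 2) ≤ t) (h2 : t ≤ 0) :
    |ha cf δ y - ha cf δ (y + t)| ≤ 8 * B * ell y * |t| := by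
  have hB0 := hB.nonneg
  have hl := ell_nonneg y
  have e1 : ha cf δ (y + t) = ∫ u : ℝ, ma cf (y + u) * gt δ (u - t) := by
    unfold ha
    rw [← integral_sub_right_eq_self (fun u : ℝ => ma cf (y + t + u) * gt δ u) t]
    congr 1
    ext u
    rw [show y + t + (u - t) = y + u by ring]
  have i2 : Integrable (fun u : ℝ => ma cf (y + u) * gt δ (u - t)) := by
    have := (ma_int hab δ (y + t)).comp_sub_right t
    refine this.congr (Eventually.of_forall fun u => ?_)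
    show ma cf (y + t + (u - t)) * gt δ (u - t) = _
    rw [show y + t + (u - t) = y + u by ring]
  rw [e1, ha, ← integral_sub (ma_int hab δ y) i2, ← Real.norm_eq_abs]
  have i3 : Integrable ((Icc (-1:ℝ) 1).indicator (fun _ => 2 * B * ell y * |t|)) :=
    (integrable_indicator_iff measurableSet_Icc).2 (integrableOn_const (by simp) enorm_ne_top)
  refine (norm_integral_le_of_norm_le i3 (Eventually.of_forall fun u => ?_)).trans ?_
  · rw [← mul_sub, norm_mul, Real.norm_eq_abs, Real.norm_eq_abs]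
    by_cases hu : u ∈ Icc (-1:ℝ) 1
    · rw [indicator_of_mem hu]
      have h3 := ma_shift1 hB (x := y) (y := u) (abs_le.2 hu)
      have h4 := gt_lip δ u (u - t)
      rw [show u - (u - t) = t by ring] at h4
      exact mul_le_mul h3 h4 (abs_nonneg _) (by positivity)
    · rw [indicator_of_notMem hu]
      rw [mem_Icc, not_and_or, not_le, not_le] at hu
      rcases hu with hu | hu
      · rw [gt_zero (δ := δ) (u := u) (Or.inl (by linarith)), gt_zero (δ := δ) (u := u - t) (Or.inl (by linarith))]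
        simp
      · rw [gt_zero (δ := δ) (u := u) (Or.inr (by linarith)), gt_zero (δ := δ) (u := u - t) (Or.inr (by linarith))]
        simp
  · rw [integral_indicator measurableSet_Icc]
    simp only [integral_const, measureReal_restrict_apply MeasurableSet.univ, univ_inter, smul_eq_mul]
    have : volume.real (Icc (-1:ℝ) 1) = 2 := by
      rw [Real.volume_real_Icc_of_le (by norm_num)]
      norm_num
    rw [this]
    have := abs_nonneg t
    nlinarith [mul_nonneg (mul_nonneg hB0 hl) this]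

theorem Dl_near1 (hab : ∀ n, |cf n| ≤ 1) (h : Adm w Cw) (hB : GB (ff cf) B) {δ : ℝ} (hδ0 : 0 < δ) (hδ : δ ≤ 1) (y lam : ℝ) (hl : lam ∈ Nr w) :
    |Dl (ha cf δ) w y lam| ≤ 24 * B * ell y * (1 - Ac w lam) := by
  have := Dl_bd (H := ha cf δ) (y := y) (B := 8 * B * ell y) (lam := lam) h.hub (ha_abs1 hB hδ0 hδ y)
    (fun t h1 h2 => ha_lip1 hab hB hδ0 hδ y t h1 h2) hl.2
  linarith

theorem Zn_growth1 (hab : ∀ n, |cf n| ≤ 1) (h : Adm w Cw) : ∃ C : ℝ, 0 ≤ C ∧ ∀ (B : ℝ), GB (ff cf) B → ∀ δ V : ℝ, 0 < δ → δ ≤ 1 →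
    |Zn cf w δ V| ≤ C * B * ell V := by
  have hg : IntegrableOn (fun lam => 1 - Ac w lam) (Nr w) := gap_int h.h0 h.hw h.hub h.hC
  have hg0 : 0 ≤ ∫ lam in Nr w, (1 - Ac w lam) :=
    integral_nonneg fun lam => by have := Ac_lt_one h.hub lam; show 0 ≤ 1 - Ac w lam; linarith
  refine ⟨24 * ∫ lam in Nr w, (1 - Ac w lam), by positivity, fun B hB δ V hδ0 hδ => ?_⟩
  rw [Zn, ← Real.norm_eq_abs]
  calc ‖∫ lam in Nr w, Dl (ha cf δ) w V lam‖ ≤ ∫ lam in Nr w, 24 * B * ell V * (1 - Ac w lam) := by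
        refine norm_integral_le_of_norm_le (Integrable.const_mul hg _) ?_
        rw [ae_restrict_iff' (Nr_meas h.hub)]
        exact Eventually.of_forall fun lam hl => Dl_near1 hab h hB hδ0 hδ V lam hl
    _ = _ := by rw [integral_const_mul]; ring

theorem Zn_up1 (hab : ∀ n, |cf n| ≤ 1) (h : Adm w Cw) : ∃ C : ℝ, 0 ≤ C ∧ ∀ δ : ℝ, 0 < δ → δ ≤ 1 → ∃ τ₀ : ℝ, τ₀ ≤ 10 + 1 / δ ∧ ∀ V : ℝ, τ₀ ≤ V →
    ∀ G : ℝ, 0 ≤ G → (∀ N : ℕ, (N : ℝ) ≤ Real.exp (V + 2) → |S cf w N| ≤ G * √(N : ℝ)) →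
      |Zn cf w δ V| ≤ C * (G + 1) * ∫ u : ℝ, gt δ u := by
  obtain ⟨h0, hw, hub, hC⟩ := h
  have hC0 : 0 ≤ Cw := by
    have := (h0 0 ⟨le_rfl, one_pos⟩).trans (by simpa using hC 1 le_rfl)
    exact this
  obtain ⟨t, ht, hwt'⟩ := hub 0
  have hwt : w t ≠ 0 := hwt'.ne'
  have hst : √t < 1 := by
    rw [Real.sqrt_lt' one_pos]
    simpa using ht.2
  have hc : 0 < (1 - √t) * w t := mul_pos (by linarith) hwt'
  have hwh := h0 _ half_mem
  set Wh := w (Real.exp (-(1 / 2))) with hWh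
  set c := (1 - √t) * w t with hcdef
  set n₁ := √(⌈2 / (1 - t)⌉₊ : ℝ) with hn₁
  have hn₁0 : 0 ≤ n₁ := Real.sqrt_nonneg _
  have hC'0 : 0 ≤ (1 + Cw) / c + n₁ := by positivity
  refine ⟨(2 + 24 * Cw) + 2 * Wh * ((1 + Cw) / c + n₁), by positivity, fun δ hδ0 hδ =>
    ⟨max (Real.log (1 / δ)) 0, ?_, fun V hV G hG hS => ?_⟩⟩
  · have h1 : 0 < 1 / δ := by positivity
    have h2 := Real.log_le_sub_one_of_pos h1
    exact max_le (by linarith) (by linarith)
  have h1 : Real.log (1 / δ) ≤ V := (le_max_left _ _).trans hV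
  have h2 : 0 ≤ V := (le_max_right _ _).trans hV
  obtain ⟨hi, hT⟩ := Pool.Agent.Helper47.EQ.tot_abs hab h0 hw hub hC0 hC hG hδ0 hδ h1 h2 hS
  have hI : 0 ≤ ∫ u, gt δ u := integral_nonneg (gt_nonneg δ)
  set I := ∫ u, gt δ u with hIdef
  -- the maximum principle
  have hK : ∀ x ≤ V + 1, |ma cf x| ≤ ((1 + Cw) / c + n₁) * (G + 1) := by
    intro x hx
    have hle : max ((G + Cw) / c) n₁ ≤ ((1 + Cw) / c + n₁) * (G + 1) := by
      have e1 : (G + Cw) / c ≤ (1 + Cw) / c * (G + 1) := by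
        rw [div_mul_eq_mul_div, div_le_div_iff_of_pos_right hc]
        nlinarith
      have e2 : n₁ ≤ n₁ * (G + 1) := by nlinarith
      have e3 : 0 ≤ (1 + Cw) / c * (G + 1) := by positivity
      rw [add_mul]
      exact max_le (by nlinarith) (by linarith)
    have e4 : ∀ N : ℕ, (N : ℝ) ≤ Real.exp (V + 1) → |S cf w N| ≤ G * √(N : ℝ) := fun N hN =>
      hS N (hN.trans (Real.exp_le_exp.2 (by linarith)))
    have e5 := Pool.Agent.Helper47.EQ.ma_up hab h0 hw ht hwt hC (G := G) (V := V) (fun N hN => (abs_le.1 (e4 N hN)).2) hx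
    have e6 := Pool.Agent.Helper47.EQ.ma_up (a := fun n => -cf n) (fun n => by rw [abs_neg]; exact hab n) h0 hw ht hwt hC (G := G)
      (V := V) (fun N hN => by
        rw [Pool.Agent.Helper47.EQ.S_neg]
        have := (abs_le.1 (e4 N hN)).1
        linarith) hx
    rw [Pool.Agent.Helper47.EQ.ma_neg] at e6
    exact abs_le.2 ⟨by linarith, e5.trans hle⟩
  have hH : ∀ x ≤ V, |ha cf δ x| ≤ ((1 + Cw) / c + n₁) * (G + 1) * I := fun x hx =>
    Pool.Agent.Helper47.EQ.ha_up hK hδ hx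
  have hF := Pool.Agent.Helper47.EQ.far_abs (w := w) hH h0 hw hub
  -- splitting
  have hsplit : ∫ lam in Ioi (0 : ℝ), Dl (ha cf δ) w V lam =
      (∫ lam in Nr w, Dl (ha cf δ) w V lam) + ∫ lam in Fr w, Dl (ha cf δ) w V lam := by
    have i1 : IntegrableOn (Dl (ha cf δ) w V) (Nr w) := hi.mono_set fun _ hl => hl.1
    have i2 : IntegrableOn (Dl (ha cf δ) w V) (Fr w) := hi.mono_set fun _ hl => hl.1
    rw [Nr_union_Fr w, setIntegral_union (Nr_disj_Fr w) (Fr_meas hub) i1 i2]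
  rw [hsplit] at hT
  unfold Zn
  rw [abs_le] at hT hF ⊢
  have e7 : (2 * G + 24 * Cw) * I ≤ (2 + 24 * Cw) * (G + 1) * I := by
    refine mul_le_mul_of_nonneg_right ?_ hI
    nlinarith
  have e8 : ((2 + 24 * Cw) + 2 * Wh * ((1 + Cw) / c + n₁)) * (G + 1) * I =
      (2 + 24 * Cw) * (G + 1) * I + 2 * (((1 + Cw) / c + n₁) * (G + 1) * I) * Wh := by ring
  rw [e8]
  constructor
  · linarith [hT.1, hF.2]
  · linarith [hT.2, hF.1]

theorem Dv_g1a {ps : ℝ → ℝ} (hps : Integrable ps) (hsupp : ∀ y, 1 < |y| → ps y = 0) {B : ℝ} (h : GB (ff cf) B) {m : ℝ}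
    (hm : 8 ≤ m) (V : ℝ) :
    Dv ps (g1a cf m) V = ∫ t : ℝ, al m t * Dv ps (ff cf) (V - t) := by
  have hB := h.nonneg
  have hint : Integrable (Function.uncurry fun y t : ℝ => ps y * (ff cf (V + y - t) * al m t))
      (volume.prod volume) := by
    have h1 : Integrable (fun p : ℝ × ℝ => |ps p.1| * (2 * B * ell V * (ell p.2 * |al m p.2|))) (volume.prod volume) :=
      Integrable.mul_prod (f := fun y => |ps y|) (g := fun t => 2 * B * ell V * (ell t * |al m t|)) hps.abs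
        ((ell_al_int hm).const_mul _)
    refine h1.mono' ?_ ?_
    · have e1 : AEStronglyMeasurable (fun p : ℝ × ℝ => ps p.1) (volume.prod volume) := hps.aestronglyMeasurable.comp_fst
      have e2 : Measurable (fun p : ℝ × ℝ => ff cf (V + p.1 - p.2) * al m p.2) :=
        ((ff_meas cf).comp (by fun_prop : Measurable fun p : ℝ × ℝ => V + p.1 - p.2)).mul
          ((al_cont m).measurable.comp measurable_snd)
      exact e1.mul e2.aestronglyMeasurable
    · filter_upwards with p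
      simp only [Function.uncurry]
      rw [Real.norm_eq_abs, abs_mul]
      rcases le_or_gt |p.1| 1 with hp | hp
      · apply mul_le_mul_of_nonneg_left _ (abs_nonneg _)
        refine (g1a_bd h m (V + p.1) p.2).trans ?_
        have e3 := ell_shift1 (V := V) hp
        have e4 : 0 ≤ ell p.2 * |al m p.2| := mul_nonneg (ell_nonneg _) (abs_nonneg _)
        calc B * ell (V + p.1) * (ell p.2 * |al m p.2|) ≤ B * (2 * ell V) * (ell p.2 * |al m p.2|) :=
              mul_le_mul_of_nonneg_right (mul_le_mul_of_nonneg_left e3 hB) e4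
          _ = _ := by ring
      · rw [hsupp _ hp]
        simp
  calc Dv ps (g1a cf m) V = ∫ y : ℝ, ∫ t : ℝ, ps y * (ff cf (V + y - t) * al m t) := by
        unfold Dv g1a
        apply integral_congr_ae
        filter_upwards with y
        rw [← integral_const_mul]
    _ = ∫ t : ℝ, ∫ y : ℝ, ps y * (ff cf (V + y - t) * al m t) := integral_integral_swap hint
    _ = ∫ t : ℝ, al m t * Dv ps (ff cf) (V - t) := by
        apply integral_congr_ae
        filter_upwards with t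
        unfold Dv
        rw [← integral_const_mul]
        apply integral_congr_ae
        filter_upwards with y
        rw [show V - t + y = V + y - t by ring]
        ring

theorem Dv_up1 {ps : ℝ → ℝ} (hps : Integrable ps) (hsupp : ∀ y, 1 < |y| → ps y = 0) {B : ℝ} (h : GB (ff cf) B) {m : ℝ}
    (hm : 8 ≤ m) {V U Q : ℝ} (hU0 : 0 ≤ U) (hQ0 : 0 ≤ Q)
    (hU : ∀ v, V - 1 ≤ v → v ≤ V + 1 → |Dv ps (ff cf) v| ≤ U) (hQ : ∀ v, |Dv ps (ff cf) v| ≤ Q * ell v) :
    |Dv ps (g1a cf m) V| ≤ 16 * U + 16 * Q * ell V * Real.exp (-((m - 4) / 4)) := by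
  rw [Dv_g1a hps hsupp h hm]
  exact al_up hm hU0 hQ0 hU hQ

theorem ps_supp1 (h : Adm w Cw) {δ : ℝ} (hδ0 : 0 < δ) (hδ : δ ≤ 1 / 4) (y : ℝ) (hy : 1 < |y|) : ps w δ y = 0 := by
  apply ps_supp h hδ0.le
  rcases lt_or_ge y 0 with h0 | h0
  · rw [abs_of_neg h0] at hy
    left
    linarith
  · rw [abs_of_nonneg h0] at hy
    right
    linarith

theorem Zn_Dr1 (h : Adm w Cw) (hB : GB (ff cf) B) {δ : ℝ} (hδ0 : 0 < δ) (hδ : δ ≤ 1 / 4) (V : ℝ) :
    Zn cf w δ V = Dr w δ (ff cf) V := by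
  have e1 : ff cf = ma cf := by
    funext x
    exact (ma_ff1 cf x).symm
  rw [e1, Dr_eq h hδ0.le (by linarith) (ma_meas cf) (M := 2 * B * ell V)]
  · rfl
  · intro y hy
    have h1 : |y - V| ≤ 1 := by
      rw [abs_le]
      constructor <;> linarith [hy.1, hy.2]
    have := ma_shift1 hB (x := V) h1
    rwa [show V + (y - V) = y by ring] at this

theorem Dr_up1 (hab : ∀ n, |cf n| ≤ 1) (h : Adm w Cw) : ∃ C : ℝ, 1 ≤ C ∧ ∀ (B : ℝ), GB (ff cf) B → ∀ m : ℝ, 64 ≤ m → ∀ δ : ℝ, 0 < δ → δ ≤ 1 / 4 →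
    ∀ V G : ℝ, 20 + 1 / δ ≤ V → 0 ≤ G → (∀ N : ℕ, (N : ℝ) ≤ Real.exp (V + 3) → |S cf w N| ≤ G * √(N : ℝ)) →
      |Dr w δ (g1a cf m) V| ≤ C * (G + 1) * (∫ u : ℝ, gt δ u) + C * B * ell V * Real.exp (-(m / 16)) := by
  obtain ⟨C3, hC3, h3⟩ := Zn_growth1 hab h
  obtain ⟨C4, hC4, h4⟩ := Zn_up1 hab h
  refine ⟨16 * C3 + 16 * C4 + 1, by linarith, fun B hB m hm δ hδ0 hδ V G hV hG hS => ?_⟩
  have hB0 := hB.nonneg
  have hI : 0 ≤ ∫ u : ℝ, gt δ u := integral_nonneg (gt_nonneg δ)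
  obtain ⟨τ₀, hτ, h5⟩ := h4 δ hδ0 (by linarith)
  have hU : ∀ v, V - 1 ≤ v → v ≤ V + 1 → |Dv (ps w δ) (ff cf) v| ≤ C4 * (G + 1) * ∫ u : ℝ, gt δ u := by
    intro v hv1 hv2
    rw [← Dr_Dv, ← Zn_Dr1 h hB hδ0 hδ]
    apply h5 v (by linarith) G hG
    intro N hN
    exact hS N (hN.trans (Real.exp_le_exp.mpr (by linarith)))
  have hQ : ∀ v, |Dv (ps w δ) (ff cf) v| ≤ C3 * B * ell v := by
    intro v
    rw [← Dr_Dv, ← Zn_Dr1 h hB hδ0 hδ]
    exact h3 B hB δ v hδ0 (by linarith)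
  have h6 := Dv_up1 (ps_int h hδ0 hδ).1 (ps_supp1 h hδ0 hδ) hB (by linarith : (8:ℝ) ≤ m)
    (by positivity : 0 ≤ C4 * (G + 1) * ∫ u : ℝ, gt δ u) (by positivity : 0 ≤ C3 * B) hU hQ
  rw [← Dr_Dv] at h6
  refine h6.trans ?_
  have hl := ell_nonneg V
  have h7 : Real.exp (-((m - 4) / 4)) ≤ Real.exp (-(m / 16)) := Real.exp_le_exp.mpr (by linarith)
  have h8 : 0 ≤ Real.exp (-(m / 16)) := (Real.exp_pos _).le
  have e1 : 16 * (C3 * B) * ell V * Real.exp (-((m - 4) / 4)) ≤ 16 * (C3 * B) * ell V * Real.exp (-(m / 16)) :=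
    mul_le_mul_of_nonneg_left h7 (by positivity)
  have e2 : 16 * (C3 * B) * ell V * Real.exp (-(m / 16)) = 16 * C3 * (B * ell V * Real.exp (-(m / 16))) := by ring
  have e3 : 16 * (C4 * (G + 1) * ∫ u : ℝ, gt δ u) = 16 * C4 * ((G + 1) * ∫ u : ℝ, gt δ u) := by ring
  have p1 : 0 ≤ B * ell V * Real.exp (-(m / 16)) := by positivity
  have p2 : 0 ≤ (G + 1) * ∫ u : ℝ, gt δ u := by positivity
  calc 16 * (C4 * (G + 1) * ∫ u : ℝ, gt δ u) + 16 * (C3 * B) * ell V * Real.exp (-((m - 4) / 4))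
      ≤ 16 * C4 * ((G + 1) * ∫ u : ℝ, gt δ u) + 16 * C3 * (B * ell V * Real.exp (-(m / 16))) := by linarith
    _ ≤ (16 * C3 + 16 * C4 + 1) * ((G + 1) * ∫ u : ℝ, gt δ u) +
        (16 * C3 + 16 * C4 + 1) * (B * ell V * Real.exp (-(m / 16))) := by nlinarith
    _ = _ := by ring

theorem fin1c (hab : ∀ n, |cf n| ≤ 1) (h : Adm w Cw) {β : ℝ} (hβ0 : 0 < β) (hβ : β ≤ 1) (c : ℝ) (N0 : ℕ)
    (hF : ∀ N : ℕ, N0 ≤ N → |S cf w N| ≤ c * (√(N : ℝ) * w (1 - Real.log (Real.log N) ^ (-β)))) :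
    ∃ B : ℝ, GB (ff cf) B := by
  have hC0 : 0 ≤ Cw := by
    have := (h.h0 0 ⟨le_rfl, one_pos⟩).trans (by simpa using h.hC 1 le_rfl)
    exact this
  -- the bound for all `N`
  have hK : ∃ K : ℝ, ∀ N : ℕ, |S cf w N| ≤ K * (√(N : ℝ) * G0 N) := by
    set N1 := max N0 16 with hN1
    set T := ∑ j ∈ Finset.range N1, |S cf w j| with hT
    have hT0 : 0 ≤ T := Finset.sum_nonneg fun _ _ => abs_nonneg _
    refine ⟨|c| * (2 * Cw) + T, fun N => ?_⟩
    have hG := G0_one N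
    have hs := Real.sqrt_nonneg (N : ℝ)
    rcases lt_or_ge N N1 with hN | hN
    · rcases Nat.eq_zero_or_pos N with h0 | h0
      · rw [h0]
        simp [S]
      · have h1 : |S cf w N| ≤ T := Finset.single_le_sum (f := fun j => |S cf w j|) (fun _ _ => abs_nonneg _)
          (Finset.mem_range.mpr hN)
        have h2 : (1:ℝ) ≤ √(N : ℝ) := by
          rw [Real.one_le_sqrt]
          exact_mod_cast h0
        have h3 : (1:ℝ) ≤ √(N : ℝ) * G0 N := by nlinarith
        have h4 : 0 ≤ |c| * (2 * Cw) := by positivity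
        nlinarith
    · have hN0 : N0 ≤ N := (le_max_left _ _).trans hN
      have hN16 : 16 ≤ N := (le_max_right _ _).trans hN
      have h16 : (16:ℝ) ≤ N := by exact_mod_cast hN16
      have hlN : Real.log 16 ≤ Real.log N := Real.log_le_log (by norm_num) h16
      have hl16 : 0 < Real.log 16 := Real.log_pos (by norm_num)
      have hll : 1 ≤ Real.log (Real.log N) := loglog16.trans (Real.log_le_log hl16 hlN)
      set l := Real.log (Real.log N) with hl
      have hl0 : 0 < l := by linarith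
      set s := l ^ (-β) with hs'
      have hs0 : 0 < s := Real.rpow_pos_of_pos hl0 _
      have hs1 : s ≤ 1 := Real.rpow_le_one_of_one_le_of_nonpos hll (by linarith)
      have hsl : 1 / l ≤ s := by
        have : l ^ (-1:ℝ) ≤ l ^ (-β) := Real.rpow_le_rpow_of_exponent_le hll (by linarith)
        rwa [Real.rpow_neg_one, ← one_div] at this
      have hmem : (1 - s) ∈ Ico (0:ℝ) 1 := by
        constructor <;> linarith
      have hw1 := w_bd h.h0 h.hw h.hC hmem
      have hw0 := h.h0 _ hmem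
      have e3 : √(1 - (1 - s)) = √s := by ring_nf
      rw [e3] at hw1
      have hw2 : 2 * Cw / √s ≤ 2 * Cw * l := by
        have e4 : 1 / l ≤ √s := by
          apply Real.le_sqrt_of_sq_le
          have e5 : (1 / l) ^ 2 ≤ 1 / l := by
            have e6 : 1 / l ≤ 1 := by
              rw [div_le_iff₀ (by linarith)]
              linarith
            have e7 : 0 < 1 / l := by positivity
            nlinarith
          exact e5.trans hsl
        rw [div_le_iff₀ ((by positivity : (0:ℝ) < 1 / l).trans_le e4)]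
        have e8 : 1 ≤ l * √s := by
          have := mul_le_mul_of_nonneg_left e4 (by linarith : 0 ≤ l)
          rwa [mul_one_div_cancel (by linarith)] at this
        nlinarith
      have hlG : l ≤ G0 N := by
        unfold G0
        have := Real.log_le_log (by linarith : 0 < Real.log N) (by linarith : Real.log N ≤ 1 + Real.log N)
        linarith
      have h5 : |S cf w N| ≤ |c| * (√(N : ℝ) * (2 * Cw * G0 N)) := by
        refine (hF N hN0).trans ?_
        have e9 : w (1 - s) ≤ 2 * Cw * G0 N := hw1.trans (hw2.trans (mul_le_mul_of_nonneg_left hlG (by linarith)))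
        calc c * (√(N : ℝ) * w (1 - s)) ≤ |c| * (√(N : ℝ) * w (1 - s)) :=
              mul_le_mul_of_nonneg_right (le_abs_self c) (mul_nonneg hs hw0)
          _ ≤ |c| * (√(N : ℝ) * (2 * Cw * G0 N)) :=
              mul_le_mul_of_nonneg_left (mul_le_mul_of_nonneg_left e9 hs) (abs_nonneg c)
      have h6 : 0 ≤ T * (√(N : ℝ) * G0 N) := mul_nonneg hT0 (mul_nonneg hs (by linarith))
      calc |S cf w N| ≤ |c| * (√(N : ℝ) * (2 * Cw * G0 N)) := h5
        _ = |c| * (2 * Cw) * (√(N : ℝ) * G0 N) := by ring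
        _ ≤ (|c| * (2 * Cw) + T) * (√(N : ℝ) * G0 N) := by linarith
  have hne : ∃ t ∈ Set.Ico (0 : ℝ) 1, w t ≠ 0 := by
    obtain ⟨t, h1, h2⟩ := h.hub 0
    exact ⟨t, h1, h2.ne'⟩
  obtain ⟨K, hK⟩ := of_weighted h.h0 h.hw hab hne h.hC G0_mono G0_one hK
  have hK0 : 0 ≤ K := by
    have h1 := (abs_nonneg _).trans (hK 1)
    have h2 := G0_one 1
    simp only [Nat.cast_one, Real.sqrt_one, one_mul] at h1
    by_contra hc
    push Not at hc
    nlinarith
  refine ⟨K, fun u => ?_⟩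
  unfold ff
  rcases lt_or_ge u 0 with hu | hu
  · rw [Asum_zero (Real.exp_lt_one_iff.mpr hu), zero_mul, abs_zero]
    unfold ell
    have := Real.log_nonneg (show (1:ℝ) ≤ 1 + |u| by linarith [abs_nonneg u])
    positivity
  · rw [abs_mul, abs_of_pos (Real.exp_pos _)]
    have h1 := hK ⌊Real.exp u⌋₊
    have hfl : ((⌊Real.exp u⌋₊ : ℕ) : ℝ) ≤ Real.exp u := Nat.floor_le (Real.exp_pos u).le
    have hf1 : 1 ≤ ⌊Real.exp u⌋₊ := Nat.le_floor (by simpa using Real.one_le_exp hu)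
    have h2 : √((⌊Real.exp u⌋₊ : ℕ) : ℝ) ≤ Real.exp (u / 2) := by
      refine (Real.sqrt_le_sqrt hfl).trans_eq ?_
      rw [← Real.exp_half]
    have h3 : G0 ⌊Real.exp u⌋₊ ≤ ell u := by
      unfold G0 ell
      have e1 : Real.log ((⌊Real.exp u⌋₊ : ℕ) : ℝ) ≤ u := by
        have := Real.log_le_log (by exact_mod_cast hf1) hfl
        rwa [Real.log_exp] at this
      have e2 := Real.log_le_log (by linarith [log_nat_nonneg ⌊Real.exp u⌋₊])
        (by rw [abs_of_nonneg hu]; linarith : 1 + Real.log ((⌊Real.exp u⌋₊ : ℕ) : ℝ) ≤ 1 + |u|)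
      linarith
    have hG1 := G0_one ⌊Real.exp u⌋₊
    have h4 : |Asum cf (Real.exp u)| ≤ K * (Real.exp (u / 2) * ell u) := by
      unfold Asum
      refine h1.trans (mul_le_mul_of_nonneg_left ?_ hK0)
      exact mul_le_mul h2 h3 (by linarith) (Real.exp_pos _).le
    calc |Asum cf (Real.exp u)| * Real.exp (-(u / 2))
        ≤ K * (Real.exp (u / 2) * ell u) * Real.exp (-(u / 2)) := mul_le_mul_of_nonneg_right h4 (Real.exp_pos _).le
      _ = K * ell u * (Real.exp (u / 2) * Real.exp (-(u / 2))) := by ring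
      _ = K * ell u := by rw [← Real.exp_add, add_neg_cancel, Real.exp_zero, mul_one]

/-! The Liouville function -/

open Pool.Agent.Helper18.ES (lam)
open Pool.Agent.Helper95.QL (g1l)

theorem abs_lam (n : ℕ) : |lam n| ≤ 1 := by
  unfold lam
  rw [← Int.cast_abs]
  rcases Nat.eq_zero_or_pos n with rfl | hn
  · simp
  · rw [ArithmeticFunction.liouville_apply hn.ne']
    simp

theorem lam_one : lam 1 = 1 := by
  unfold lam
  rw [ArithmeticFunction.liouville_apply one_ne_zero]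
  simp

theorem g1l_meas (m : ℝ) : Measurable (g1l m) := g1a_meas lam m

theorem g1l_abs (hB : GB (ff lam) B) {m : ℝ} (hm : 8 ≤ m) (x : ℝ) : |g1l m x| ≤ 16 * B * ell x := g1a_abs hB hm x

theorem g1l_near (hB : GB (ff lam) B) {m : ℝ} (hm : 64 ≤ m) {v : ℝ} (h1 : -1 ≤ v) (h2 : v ≤ 1 / 5) :
    |g1l m v - Real.exp (-(v / 2)) * EE m v| ≤ 2 * Real.exp (-(m / 32)) + 16 * B * Real.exp (-((m - 4) / 32)) :=
  g1a_near lam_one hB hm h1 h2

theorem Drl_low (h : Adm w Cw) (hB : GB (ff lam) B) {m : ℝ} (hm : 1000 ≤ m) {V : ℝ} (h1 : -(2 / √m) ≤ V) (h2 : V ≤ -(1 / √m)) :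
    1 / 64 * nu w (6 / √m) * (∫ u : ℝ, gt (1 / √m) u) -
      (2 * Real.exp (-(m / 32)) + 16 * B * Real.exp (-((m - 4) / 32))) * (∫ y : ℝ, |ps w (1 / √m) y|)
      ≤ Dr w (1 / √m) (g1l m) V := Dr_low1 lam_one h hB hm h1 h2

theorem Znl_growth (h : Adm w Cw) : ∃ C : ℝ, 0 ≤ C ∧ ∀ (B : ℝ), GB (ff lam) B → ∀ δ V : ℝ, 0 < δ → δ ≤ 1 →
    |Zn lam w δ V| ≤ C * B * ell V := Zn_growth1 abs_lam h

theorem Znl_up (h : Adm w Cw) : ∃ C : ℝ, 0 ≤ C ∧ ∀ δ : ℝ, 0 < δ → δ ≤ 1 → ∃ τ₀ : ℝ, τ₀ ≤ 10 + 1 / δ ∧ ∀ V : ℝ, τ₀ ≤ V →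
    ∀ G : ℝ, 0 ≤ G → (∀ N : ℕ, (N : ℝ) ≤ Real.exp (V + 2) → |S lam w N| ≤ G * √(N : ℝ)) →
      |Zn lam w δ V| ≤ C * (G + 1) * ∫ u : ℝ, gt δ u := Zn_up1 abs_lam h

theorem Drl_up (h : Adm w Cw) : ∃ C : ℝ, 1 ≤ C ∧ ∀ (B : ℝ), GB (ff lam) B → ∀ m : ℝ, 64 ≤ m → ∀ δ : ℝ, 0 < δ → δ ≤ 1 / 4 →
    ∀ V G : ℝ, 20 + 1 / δ ≤ V → 0 ≤ G → (∀ N : ℕ, (N : ℝ) ≤ Real.exp (V + 3) → |S lam w N| ≤ G * √(N : ℝ)) →
      |Dr w δ (g1l m) V| ≤ C * (G + 1) * (∫ u : ℝ, gt δ u) + C * B * ell V * Real.exp (-(m / 16)) := Dr_up1 abs_lam h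

theorem finl (h : Adm w Cw) {β : ℝ} (hβ0 : 0 < β) (hβ : β ≤ 1) (c : ℝ) (N0 : ℕ)
    (hF : ∀ N : ℕ, N0 ≤ N → |S lam w N| ≤ c * (√(N : ℝ) * w (1 - Real.log (Real.log N) ^ (-β)))) :
    ∃ B : ℝ, GB (ff lam) B := fin1c abs_lam h hβ0 hβ c N0 hF

end Pool.Agent.Helper56.QL
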