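import Pool.Agent.Helper47.QL.K8
import Pool.Agent.Helper56.QL.Cp

/-! Project QL, block GR: growth and real part of the two-sided function. -/

set_option autoImplicit false

namespace Pool.Agent.Helper56.QL

open MeasureTheory Set Filter Topology
open Pool.Agent.Helper18.ES (lam bb)
open Pool.Agent.Helper95.QL
open Pool.Agent.Helper47.QL (one_le_pw ell_le_pw)
open Pool.Agent.Helper99.MS (ell ff GB al ell_nonneg one_le_ell ell_add)

/-- the growth of `Hh`, from the bounds of the remainder -/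
theorem Hh_bd_of
    (hl : ∃ C : ℝ, 1 ≤ C ∧ ∀ B : ℝ, GB (ff lam) B → ∀ m : ℕ, 8 ≤ m → ∀ v : ℝ, v ≤ 0 → |Rm m v| ≤ C * B * (m : ℝ) ^ 6 * pw v)
    (hr : ∃ C : ℝ, 1 ≤ C ∧ ∀ m : ℝ, 8 ≤ m → ∀ v : ℝ, 0 ≤ v → |Rm m v| ≤ C * m * Real.exp (-(v / 4)))
    (ha : ∃ C : ℝ, 1 ≤ C ∧ ∀ m : ℝ, 8 ≤ m → |∫ t : ℝ, al m t| ≤ C * m ^ (-(1/2) : ℝ)) :
    ∃ C : ℝ, 1 ≤ C ∧ ∀ B : ℝ, GB (ff lam) B → ∀ k : ℕ, 2 ≤ k → ∀ u v : ℝ, 0 ≤ u →
    ‖Hh (4 * k : ℕ) (v + u)‖ ≤ C * (B + 1) * ((4 * k : ℕ) : ℝ) ^ 6 * ell u * pw v := by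
  obtain ⟨Cl, hCl, hl⟩ := hl
  obtain ⟨Cr, hCr, hr⟩ := hr
  obtain ⟨Ca, hCa, ha⟩ := ha
  refine ⟨16 + Cl + Cr + |bb| * Ca, by nlinarith [abs_nonneg bb], fun B hB k hk u v hu => ?_⟩
  have hB0 := hB.nonneg
  have hm8n : 8 ≤ 4 * k := by omega
  have hm8 : (8 : ℝ) ≤ ((4 * k : ℕ) : ℝ) := by exact_mod_cast hm8n
  have hgl := g1l_abs hB hm8 (v + u)
  have hRl := hl B hB (4 * k) hm8n
  have hRr := hr ((4 * k : ℕ) : ℝ) hm8
  have hA := ha ((4 * k : ℕ) : ℝ) hm8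
  set m : ℝ := ((4 * k : ℕ) : ℝ) with hm
  have hm1 : 1 ≤ m := by linarith
  have hm6 : 1 ≤ m ^ 6 := one_le_pow₀ hm1
  have hmm6 : m ≤ m ^ 6 := by
    calc m = m ^ 1 := (pow_one m).symm
      _ ≤ m ^ 6 := pow_le_pow_right₀ hm1 (by norm_num)
  have hlu := one_le_ell u
  have hlu0 := ell_nonneg u
  have hpw := one_le_pw v
  have hpw0 : 0 ≤ pw v := by linarith
  -- the three parts
  have p1 : |g1l m (v + u)| ≤ 16 * (B * (m ^ 6 * (ell u * pw v))) := by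
    refine hgl.trans ?_
    have q1 : ell (v + u) ≤ ell u * pw v := by
      refine (ell_add v u).trans ?_
      rw [mul_comm]
      exact mul_le_mul_of_nonneg_left (ell_le_pw v) hlu0
    have q2 : ell u * pw v ≤ m ^ 6 * (ell u * pw v) := by
      have : 0 ≤ ell u * pw v := mul_nonneg hlu0 hpw0
      nlinarith
    calc 16 * B * ell (v + u) ≤ 16 * B * (m ^ 6 * (ell u * pw v)) := mul_le_mul_of_nonneg_left (q1.trans q2) (by positivity)
      _ = _ := by ring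
  have hX : 1 ≤ m ^ 6 * (ell u * pw v) := by
    have : 1 ≤ ell u * pw v := by nlinarith
    nlinarith
  have p2 : |Rm m (v + u)| ≤ (Cl + Cr) * ((B + 1) * (m ^ 6 * (ell u * pw v))) := by
    rcases le_or_gt 0 (v + u) with h | h
    · refine (hRr (v + u) h).trans ?_
      have q1 : Real.exp (-((v + u) / 4)) ≤ 1 := Real.exp_le_one_iff.2 (by linarith)
      have q2 : Cr * m * Real.exp (-((v + u) / 4)) ≤ Cr * m ^ 6 := by
        calc Cr * m * Real.exp (-((v + u) / 4)) ≤ Cr * m * 1 := mul_le_mul_of_nonneg_left q1 (by positivity)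
          _ ≤ Cr * m ^ 6 := by
            rw [mul_one]
            exact mul_le_mul_of_nonneg_left hmm6 (by linarith)
      have q3 : m ^ 6 ≤ (B + 1) * (m ^ 6 * (ell u * pw v)) := by
        have q4 : 1 ≤ ell u * pw v := by nlinarith
        have q5 : m ^ 6 ≤ m ^ 6 * (ell u * pw v) := by nlinarith
        have q6 : 0 ≤ B * (m ^ 6 * (ell u * pw v)) := mul_nonneg hB0 (by linarith)
        linarith
      have q7 : Cr * m ^ 6 ≤ Cr * ((B + 1) * (m ^ 6 * (ell u * pw v))) := mul_le_mul_of_nonneg_left q3 (by linarith)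
      have q8 : 0 ≤ Cl * ((B + 1) * (m ^ 6 * (ell u * pw v))) := mul_nonneg (by linarith) (by nlinarith)
      linarith
    · refine (hRl (v + u) h.le).trans ?_
      have q1 : pw (v + u) ≤ pw v := by
        unfold pw
        apply pow_le_pow_left₀ (by positivity)
        have : |v + u| ≤ |v| := by
          rw [abs_of_neg h, abs_of_nonpos (by linarith)]
          linarith
        linarith
      have q2 : pw v ≤ ell u * pw v := by nlinarith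
      have q3 : Cl * B * m ^ 6 * pw (v + u) ≤ Cl * B * m ^ 6 * (ell u * pw v) :=
        mul_le_mul_of_nonneg_left (q1.trans q2) (by positivity)
      have q4 : 0 ≤ Cl * (m ^ 6 * (ell u * pw v)) := mul_nonneg (by linarith) (by linarith)
      have q5 : 0 ≤ Cr * ((B + 1) * (m ^ 6 * (ell u * pw v))) := mul_nonneg (by linarith) (by nlinarith)
      nlinarith
  have p3 : |bb * ∫ t : ℝ, al m t| ≤ |bb| * Ca * ((B + 1) * (m ^ 6 * (ell u * pw v))) := by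
    rw [abs_mul, mul_assoc]
    apply mul_le_mul_of_nonneg_left _ (abs_nonneg _)
    refine hA.trans ?_
    apply mul_le_mul_of_nonneg_left _ (by linarith)
    have q1 : m ^ (-(1/2) : ℝ) ≤ 1 := Real.rpow_le_one_of_one_le_of_nonpos hm1 (by norm_num)
    nlinarith
  unfold Hh
  rw [Complex.norm_real, Real.norm_eq_abs]
  have h1 : |g1l m (v + u) - Rm m (v + u) - bb * ∫ t : ℝ, al m t| ≤ |g1l m (v + u)| + |Rm m (v + u)| + |bb * ∫ t : ℝ, al m t| := by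
    refine (abs_sub _ _).trans ?_
    linarith [abs_sub (g1l m (v + u)) (Rm m (v + u))]
  refine h1.trans ?_
  have h2 : 0 ≤ m ^ 6 * (ell u * pw v) := by linarith
  calc |g1l m (v + u)| + |Rm m (v + u)| + |bb * ∫ t : ℝ, al m t|
      ≤ 16 * (B * (m ^ 6 * (ell u * pw v))) + (Cl + Cr) * ((B + 1) * (m ^ 6 * (ell u * pw v))) +
        |bb| * Ca * ((B + 1) * (m ^ 6 * (ell u * pw v))) := by linarith
    _ ≤ (16 + Cl + Cr + |bb| * Ca) * ((B + 1) * (m ^ 6 * (ell u * pw v))) := by nlinarith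
    _ = _ := by ring

theorem exp_small : ∃ C : ℝ, 0 ≤ C ∧ ∀ m : ℝ, 8 ≤ m → m * Real.exp (-(√m / 4)) ≤ C * m ^ (-(3/16) : ℝ) := by
  -- m^(19/16) ≤ m^2 = (√m)^4 and x^4 ≤ 4! * 4^4 exp (x / 4)
  refine ⟨24 * 4 ^ 4, by norm_num, fun m hm => ?_⟩
  have hm0 : 0 < m := by linarith
  have h1 : (√m / 4) ^ 4 / (Nat.factorial 4 : ℝ) ≤ Real.exp (√m / 4) := Real.pow_div_factorial_le_exp _ (by positivity) 4
  have h2 : (√m) ^ 4 = m ^ 2 := by
    rw [show (√m) ^ 4 = ((√m) ^ 2) ^ 2 by ring, Real.sq_sqrt hm0.le]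
  have h3 : m ^ 2 ≤ 24 * 4 ^ 4 * Real.exp (√m / 4) := by
    have e1 : (√m / 4) ^ 4 = m ^ 2 / 4 ^ 4 := by rw [div_pow, h2]
    rw [e1] at h1
    norm_num [Nat.factorial] at h1 ⊢
    linarith
  have h4 : m * m ^ (3/16 : ℝ) ≤ m ^ 2 := by
    have e1 : m ^ (3/16 : ℝ) ≤ m ^ (1 : ℝ) := Real.rpow_le_rpow_of_exponent_le (by linarith) (by norm_num)
    rw [Real.rpow_one] at e1
    nlinarith
  rw [Real.rpow_neg hm0.le, Real.exp_neg]
  have h5 : 0 < m ^ (3/16 : ℝ) := Real.rpow_pos_of_pos hm0 _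
  have h6 := Real.exp_pos (√m / 4)
  rw [← div_eq_mul_inv, ← div_eq_mul_inv, div_le_div_iff₀ h6 h5]
  linarith

/-- the real part of `Hh`, from the bounds of the remainder -/
theorem Hh_re_of
    (hn : ∃ C : ℝ, 1 ≤ C ∧ ∀ m : ℝ, 8 ≤ m → ∀ v : ℝ, |v| ≤ 3/4 → |Rm m v + bb * ∫ t : ℝ, al m t| ≤ C * m ^ (-(3/16) : ℝ))
    (hr : ∃ C : ℝ, 1 ≤ C ∧ ∀ m : ℝ, 8 ≤ m → ∀ v : ℝ, 0 ≤ v → |Rm m v| ≤ C * m * Real.exp (-(v / 4)))
    (ha : ∃ C : ℝ, 1 ≤ C ∧ ∀ m : ℝ, 8 ≤ m → |∫ t : ℝ, al m t| ≤ C * m ^ (-(1/2) : ℝ)) :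
    ∃ C : ℝ, 1 ≤ C ∧ ∀ k : ℕ, 2 ≤ k → ∀ v : ℝ, |v| ≤ 3/4 ∨ √((4 * k : ℕ) : ℝ) ≤ v →
    |(Hh (4 * k : ℕ) v).re - g1l (4 * k : ℕ) v| ≤ C * ((4 * k : ℕ) : ℝ) ^ (-(3/16) : ℝ) := by
  obtain ⟨Cn, hCn, hn⟩ := hn
  obtain ⟨Cr, hCr, hr⟩ := hr
  obtain ⟨Ca, hCa, ha⟩ := ha
  obtain ⟨Ce, hCe, he⟩ := exp_small
  refine ⟨Cn + Cr * Ce + |bb| * Ca, by nlinarith [abs_nonneg bb, mul_nonneg (by linarith : 0 ≤ Cr) hCe], fun k hk v hv => ?_⟩
  have hm8n : 8 ≤ 4 * k := by omega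
  have hm8 : (8 : ℝ) ≤ ((4 * k : ℕ) : ℝ) := by exact_mod_cast hm8n
  set m : ℝ := ((4 * k : ℕ) : ℝ) with hm
  have hm1 : 1 ≤ m := by linarith
  have h0 : (Hh m v).re - g1l m v = -(Rm m v + bb * ∫ t : ℝ, al m t) := by
    unfold Hh
    rw [Complex.ofReal_re]
    ring
  have hp : 0 < m ^ (-(3/16) : ℝ) := Real.rpow_pos_of_pos (by linarith) _
  rw [h0, abs_neg]
  rcases hv with hv | hv
  · refine (hn m hm8 v hv).trans ?_
    have q1 : 0 ≤ (Cr * Ce + |bb| * Ca) * m ^ (-(3/16) : ℝ) := by positivity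
    linarith
  · have hv0 : 0 ≤ v := (Real.sqrt_nonneg _).trans hv
    have q1 : |Rm m v| ≤ Cr * (Ce * m ^ (-(3/16) : ℝ)) := by
      refine (hr m hm8 v hv0).trans ?_
      rw [mul_assoc]
      apply mul_le_mul_of_nonneg_left _ (by linarith)
      refine le_trans ?_ (he m hm8)
      apply mul_le_mul_of_nonneg_left _ (by linarith)
      exact Real.exp_le_exp.2 (by linarith)
    have q2 : |bb * ∫ t : ℝ, al m t| ≤ |bb| * (Ca * m ^ (-(3/16) : ℝ)) := by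
      rw [abs_mul]
      apply mul_le_mul_of_nonneg_left _ (abs_nonneg _)
      refine (ha m hm8).trans ?_
      apply mul_le_mul_of_nonneg_left _ (by linarith)
      exact Real.rpow_le_rpow_of_exponent_le hm1 (by norm_num)
    refine (abs_add_le _ _).trans ?_
    have q3 : 0 ≤ Cn * m ^ (-(3/16) : ℝ) := by positivity
    linarith

end Pool.Agent.Helper56.QL
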